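import Pool.Agent.V7H79.CF.Gram

/-!
Polynomial growth of the language of a context-free grammar with unique contexts.
-/

set_option autoImplicit false

namespace Pool.Agent.V7H79.CF

open Classical

variable {T : Type} {g : ContextFreeGrammar T}

/-- polynomially bounded families of finite sets -/
def PB (W : ℕ → Set (List T)) : Prop :=
  ∃ m : ℕ, ∀ n : ℕ, ∃ F : Finset (List T), W n ⊆ F ∧ F.card ≤ (n + 2) ^ m

/-- words of length at most `n` yielded by `u` -/
def W (g : ContextFreeGrammar T) (S : Set g.NT) (u : List (Symbol T g.NT)) (n : ℕ) : Set (List T) :=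
  {w | w.length ≤ n ∧ Y S u w}

theorem pow_le {n m m' : ℕ} (h : m ≤ m') : (n + 2) ^ m ≤ (n + 2) ^ m' :=
  Nat.pow_le_pow_right (by omega) h

theorem PB.mono {W W' : ℕ → Set (List T)} (h : ∀ n, W' n ⊆ W n) (hW : PB W) : PB W' := by
  obtain ⟨m, hm⟩ := hW
  refine ⟨m, fun n => ?_⟩
  obtain ⟨F, h1, h2⟩ := hm n
  exact ⟨F, (h n).trans h1, h2⟩

theorem PB.empty : PB (fun _ => (∅ : Set (List T))) :=
  ⟨0, fun n => ⟨∅, by simp, by simp⟩⟩

theorem PB.mul {W₁ W₂ W' : ℕ → Set (List T)} (h₁ : PB W₁) (h₂ : PB W₂)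
    (h : ∀ n, ∀ w ∈ W' n, ∃ w₁ ∈ W₁ n, ∃ w₂ ∈ W₂ n, w = w₁ ++ w₂) : PB W' := by
  obtain ⟨m₁, H₁⟩ := h₁
  obtain ⟨m₂, H₂⟩ := h₂
  refine ⟨m₁ + m₂, fun n => ?_⟩
  obtain ⟨F₁, a1, a2⟩ := H₁ n
  obtain ⟨F₂, b1, b2⟩ := H₂ n
  refine ⟨Finset.image₂ (fun a b => a ++ b) F₁ F₂, ?_, ?_⟩
  · intro w hw
    obtain ⟨w₁, c1, w₂, c2, rfl⟩ := h n w hw
    rw [Finset.mem_coe]
    exact Finset.mem_image₂_of_mem (Finset.mem_coe.1 (a1 c1)) (Finset.mem_coe.1 (b1 c2))
  · calc (Finset.image₂ (fun a b => a ++ b) F₁ F₂).card ≤ F₁.card * F₂.card :=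
        Finset.card_image₂_le _ _ _
      _ ≤ (n + 2) ^ m₁ * (n + 2) ^ m₂ := Nat.mul_le_mul a2 b2
      _ = _ := (pow_add _ _ _).symm

/-- a string is polynomially bounded if its reachable nonterminals are -/
theorem PB.string {S : Set g.NT}
    (hS : ∀ Z : g.NT, Reach g [Symbol.nonterminal Z] → PB (W g S [Symbol.nonterminal Z])) :
    ∀ u : List (Symbol T g.NT), Reach g u → PB (W g S u) := by
  intro u
  induction u with
  | nil =>
    intro _
    refine ⟨0, fun n => ⟨{[]}, ?_, by simp⟩⟩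
    rintro w ⟨_, hw⟩
    cases hw
    simp
  | cons x u ih =>
    intro hu
    by_cases hne : ∃ w, Y S (x :: u) w
    swap
    · refine PB.empty.mono fun n w hw => hne ⟨w, hw.2⟩
    obtain ⟨w, hw⟩ := hne
    obtain ⟨π, σ, hπ⟩ := hu
    cases x with
    | terminal t =>
      have hr : Reach g u := by
        refine ⟨π ++ [t], σ, ?_⟩
        simpa using hπ
      refine PB.mul (W₁ := fun _ => {[t]}) ⟨0, fun n => ⟨{[t]}, by simp, by simp⟩⟩ (ih hr) ?_
      rintro n w' ⟨hl, hw'⟩
      cases hw' with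
      | term t h =>
        rename_i w''
        refine ⟨[t], rfl, w'', ⟨?_, h⟩, rfl⟩
        simp at hl; omega
    | nonterminal Z =>
      have hw0 : Y S ([Symbol.nonterminal Z] ++ u) w := by simpa using hw
      obtain ⟨w₁, w₂, rfl, h1, h2⟩ := hw0.split
      have hr1 : Reach g [Symbol.nonterminal Z] := by
        refine ⟨π, w₂ ++ σ, hπ.trans ?_⟩
        have a1 := ContextFreeGrammar.Derives.append_right
          (ContextFreeGrammar.Derives.append_left h2.derives
            (π.map Symbol.terminal ++ [Symbol.nonterminal Z])) (σ.map Symbol.terminal)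
        simpa using a1
      have hr2 : Reach g u := by
        refine ⟨π ++ w₁, σ, hπ.trans ?_⟩
        have a1 := ContextFreeGrammar.Derives.append_right
          (ContextFreeGrammar.Derives.append_left (ContextFreeGrammar.Derives.append_right
            h1.derives u) (π.map Symbol.terminal)) (σ.map Symbol.terminal)
        simpa using a1
      refine PB.mul (hS Z hr1) (ih hr2) ?_
      rintro n w' ⟨hl, hw'⟩
      have hw1 : Y S ([Symbol.nonterminal Z] ++ u) w' := by simpa using hw'
      obtain ⟨v₁, v₂, rfl, c1, c2⟩ := hw1.split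
      rw [List.length_append] at hl
      exact ⟨v₁, ⟨by omega, c1⟩, v₂, ⟨by omega, c2⟩, rfl⟩

theorem reach_output {X : g.NT} (hX : Reach g [Symbol.nonterminal X]) {r : ContextFreeRule T g.NT}
    (hr : r ∈ g.rules) (hrX : r.input = X) : Reach g r.output := by
  obtain ⟨π, σ, hπ⟩ := hX
  refine ⟨π, σ, hπ.trans ?_⟩
  subst hrX
  have h1 : g.Derives [Symbol.nonterminal r.input] r.output :=
    ContextFreeGrammar.Produces.single ⟨r, hr, ContextFreeRule.Rewrites.input_output⟩
  exact ContextFreeGrammar.Derives.append_right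
    (ContextFreeGrammar.Derives.append_left h1 (π.map Symbol.terminal)) (σ.map Symbol.terminal)

theorem PB.nont (hU : UniqueCtx g) : ∀ (c : ℕ) (S : Set g.NT), S.Finite → S.ncard = c →
    ∀ X : g.NT, Reach g [Symbol.nonterminal X] → PB (W g S [Symbol.nonterminal X]) := by
  intro c
  induction c with
  | zero =>
    intro S hS hc X _
    rw [Set.ncard_eq_zero hS] at hc
    subst hc
    refine PB.empty.mono ?_
    rintro n w ⟨_, hw⟩
    cases hw with
    | nont hr hS _ _ => exact hS
  | succ c ih =>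
    intro S hS hc X hX
    by_cases hXS : X ∈ S
    swap
    · refine PB.empty.mono ?_
      rintro n w ⟨_, hw⟩
      cases hw with
      | nont hr hS _ _ => exact hXS hS
    have hS' : (S \ {X}).Finite := hS.sdiff
    have hc' : (S \ {X}).ncard = c := by
      rw [Set.ncard_sdiff_singleton_of_mem hXS, hc]; rfl
    have hstr := PB.string (ih (S \ {X}) hS' hc')
    by_cases hne : ∃ ζ : List T, Y (g := g) Set.univ [Symbol.nonterminal X] ζ
    swap
    · refine PB.empty.mono ?_
      rintro n w ⟨_, hw⟩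
      exact hne ⟨w, hw.mono (Set.subset_univ _)⟩
    have hU' := hU X hX hne
    -- bounds for the outputs
    have hb : ∀ r : ContextFreeRule T g.NT, ∃ m : ℕ, r ∈ g.rules → r.input = X →
        ∀ n : ℕ, ∃ F : Finset (List T), W g (S \ {X}) r.output n ⊆ F ∧ F.card ≤ (n + 2) ^ m := by
      intro r
      by_cases h : r ∈ g.rules ∧ r.input = X
      · obtain ⟨m, hm⟩ := hstr r.output (reach_output hX h.1 h.2)
        exact ⟨m, fun _ _ => hm⟩
      · exact ⟨0, fun h1 h2 => absurd ⟨h1, h2⟩ h⟩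
    choose m hm using hb
    set M := g.rules.sup m with hM
    have hb' : ∀ n : ℕ, ∀ r : ContextFreeRule T g.NT, ∃ F : Finset (List T),
        F.card ≤ (n + 2) ^ M ∧ (r ∈ g.rules → r.input = X → W g (S \ {X}) r.output n ⊆ F) := by
      intro n r
      by_cases h : r ∈ g.rules ∧ r.input = X
      · obtain ⟨F, h1, h2⟩ := hm r h.1 h.2 n
        exact ⟨F, h2.trans (pow_le (Finset.le_sup h.1)), fun _ _ => h1⟩
      · exact ⟨∅, by simp, fun h1 h2 => absurd ⟨h1, h2⟩ h⟩
    -- the contexts
    have hctx : ∀ i j : ℕ, ∃ p : List T × List T, ∀ α γ : List T,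
        Ctx g [Symbol.nonterminal X] X α γ → α.length = i → γ.length = j → α = p.1 ∧ γ = p.2 := by
      intro i j
      by_cases h : ∃ α γ : List T, Ctx g [Symbol.nonterminal X] X α γ ∧ α.length = i ∧ γ.length = j
      · obtain ⟨α, γ, h1, h2, h3⟩ := h
        exact ⟨(α, γ), fun α' γ' h1' h2' h3' =>
          hU' α' γ' α γ h1' h1 (h2'.trans h2.symm) (h3'.trans h3.symm)⟩
      · exact ⟨([], []), fun α' γ' h1' h2' h3' => absurd ⟨α', γ', h1', h2', h3'⟩ h⟩
    choose p hp using hctx
    choose F hF1 hF2 using hb'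
    refine ⟨2 + g.rules.card + M, fun n => ?_⟩
    refine ⟨((Finset.range (n + 1) ×ˢ Finset.range (n + 1)) ×ˢ g.rules).biUnion
      (fun q => (F n q.2).image (fun β => (p q.1.1 q.1.2).1 ++ β ++ (p q.1.1 q.1.2).2)), ?_, ?_⟩
    · rintro w ⟨hl, hw⟩
      rcases hw.decomp X with h | ⟨α, β, γ, rfl, hc, r, hr, hrX, hβ⟩
      · exfalso
        cases h with
        | nont hr hS _ _ => exact hS.2 rfl
      · simp only [List.length_append] at hl
        obtain ⟨e1, e2⟩ := hp α.length γ.length α γ hc rfl rfl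
        rw [Finset.mem_coe, Finset.mem_biUnion]
        refine ⟨((α.length, γ.length), r), ?_, ?_⟩
        · rw [Finset.mem_product, Finset.mem_product]
          exact ⟨⟨Finset.mem_range.2 (show α.length < n + 1 by omega),
            Finset.mem_range.2 (show γ.length < n + 1 by omega)⟩, hr⟩
        · rw [Finset.mem_image]
          refine ⟨β, Finset.mem_coe.1 (hF2 n r hr hrX ⟨by omega, hβ⟩), ?_⟩
          simp only
          rw [← e1, ← e2]
    · calc _ ≤ ∑ q ∈ ((Finset.range (n + 1) ×ˢ Finset.range (n + 1)) ×ˢ g.rules), (n + 2) ^ M := by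
            refine Finset.card_biUnion_le.trans (Finset.sum_le_sum fun q _ => ?_)
            exact Finset.card_image_le.trans (hF1 n q.2)
        _ = (n + 1) * (n + 1) * g.rules.card * (n + 2) ^ M := by
            rw [Finset.sum_const, Finset.card_product, Finset.card_product, Finset.card_range,
              smul_eq_mul]
        _ ≤ (n + 2) ^ 2 * (n + 2) ^ g.rules.card * (n + 2) ^ M := by
            apply Nat.mul_le_mul_right
            apply Nat.mul_le_mul
            · rw [pow_two]; exact Nat.mul_le_mul (by omega) (by omega)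
            · calc g.rules.card ≤ 2 ^ g.rules.card := Nat.lt_two_pow_self.le
                _ ≤ _ := Nat.pow_le_pow_left (by omega) _
        _ = _ := by rw [← pow_add, ← pow_add]

/-- **Polynomial growth.** -/
theorem PB.language (hU : UniqueCtx g) :
    ∃ m : ℕ, ∀ n : ℕ, ∃ F : Finset (List T), {w | w ∈ g.language ∧ w.length ≤ n} ⊆ (F : Set _) ∧
      F.card ≤ (n + 2) ^ m := by
  have h0 : Reach g [Symbol.nonterminal g.initial] :=
    ⟨[], [], by simpa using ContextFreeGrammar.Derives.refl _⟩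
  obtain ⟨m, hm⟩ := PB.nont hU _ (inputs g) (inputs_finite g) rfl g.initial h0
  refine ⟨m, fun n => ?_⟩
  obtain ⟨F, h1, h2⟩ := hm n
  refine ⟨F, ?_, h2⟩
  rintro w ⟨hw, hl⟩
  exact h1 ⟨hl, (Y.of_derives hw).to_inputs⟩

end Pool.Agent.V7H79.CF
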