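import Pool.Agent.V7H79.CF.Count

/-!
If contexts are not unique then the language contains cubes; many representations.
-/

set_option autoImplicit false

namespace Pool.Agent.V7H79.CF

/-- representations of `n` as a sum of `h` elements of `A`, unordered -/
def Reps (A : Set ℕ) (h n : ℕ) : Set (Multiset ℕ) :=
  {s : Multiset ℕ | Multiset.card s = h ∧ (∀ a ∈ s, a ∈ A) ∧ s.sum = n}

theorem reps_finite (A : Set ℕ) (h n : ℕ) : (Reps A h n).Finite := by
  classical
  refine ((h • Multiset.range (n + 1)).powerset.toFinset.finite_toSet).subset ?_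
  rintro s ⟨h1, _, h3⟩
  rw [Finset.mem_coe, Multiset.mem_toFinset, Multiset.mem_powerset, Multiset.le_iff_count]
  intro a
  rw [Multiset.count_nsmul]
  by_cases ha : a ∈ s
  · have h4 : a ≤ n := by rw [← h3]; exact Multiset.le_sum_of_mem ha
    have h5 : Multiset.count a (Multiset.range (n + 1)) = 1 :=
      Multiset.count_eq_one_of_mem (Multiset.nodup_range _) (Multiset.mem_range.2 (by omega))
    rw [h5, mul_one, ← h1]
    exact Multiset.count_le_card a s
  · rw [Multiset.count_eq_zero_of_notMem ha]
    exact Nat.zero_le _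

/-- the words of a cube -/
def wd (α γ : Bool → List ℕ) (ζ : List ℕ) : List Bool → List ℕ
  | [] => ζ
  | b :: ε => α b ++ wd α γ ζ ε ++ γ b

variable {α γ : Bool → List ℕ} {ζ : List ℕ}

theorem wd_length {a c : ℕ} (hα : ∀ b, (α b).length = a) (hγ : ∀ b, (γ b).length = c)
    (ε : List Bool) : (wd α γ ζ ε).length = ζ.length + ε.length * (a + c) := by
  induction ε with
  | nil => simp [wd]
  | cons b ε ih =>
    simp only [wd, List.length_append, hα, hγ, ih, List.length_cons]
    ring

theorem wd_inj {a c : ℕ} (hα : ∀ b, (α b).length = a) (hγ : ∀ b, (γ b).length = c)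
    (hne : ¬ (α true = α false ∧ γ true = γ false)) {ε ε' : List Bool} (hl : ε.length = ε'.length)
    (h : wd α γ ζ ε = wd α γ ζ ε') : ε = ε' := by
  induction ε generalizing ε' with
  | nil =>
    cases ε' with
    | nil => rfl
    | cons _ _ => simp at hl
  | cons b ε ih =>
    cases ε' with
    | nil => simp at hl
    | cons b' ε' =>
      simp only [List.length_cons, add_left_inj] at hl
      simp only [wd] at h
      have hl1 : (α b ++ wd α γ ζ ε).length = (α b' ++ wd α γ ζ ε').length := by
        rw [List.length_append, List.length_append, hα, hα, wd_length hα hγ, wd_length hα hγ, hl]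
      obtain ⟨h1, h2⟩ := List.append_inj h hl1
      obtain ⟨h3, h4⟩ := List.append_inj h1 (by rw [hα, hα])
      have h5 := ih hl h4
      subst h5
      have h6 : b = b' := by
        by_contra hb
        apply hne
        rcases b with _ | _ <;> rcases b' with _ | _ <;> simp_all
      rw [h6]

theorem wd_sum {a c : ℕ} (hα : ∀ b, (α b).length = a) (hγ : ∀ b, (γ b).length = c) (k : ℕ) :
    ∀ m : ℕ, ∃ s : ℕ, ∀ ε : List Bool, ε.length = m →
      Nat.ofDigits k (wd α γ ζ ε) + Nat.ofDigits k (wd α γ ζ (ε.map not)) = s := by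
  intro m
  induction m with
  | zero =>
    refine ⟨Nat.ofDigits k ζ + Nat.ofDigits k ζ, fun ε hε => ?_⟩
    rw [List.length_eq_zero_iff] at hε
    subst hε
    rfl
  | succ m ih =>
    obtain ⟨s, hs⟩ := ih
    refine ⟨(Nat.ofDigits k (α true) + Nat.ofDigits k (α false)) + k ^ a * s +
      k ^ (a + (ζ.length + m * (a + c))) * (Nat.ofDigits k (γ true) + Nat.ofDigits k (γ false)),
      fun ε hε => ?_⟩
    cases ε with
    | nil => simp at hε
    | cons b ε =>
      simp only [List.length_cons, add_left_inj] at hε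
      have h1 := hs ε hε
      have l1 : (wd α γ ζ ε).length = ζ.length + m * (a + c) := by rw [wd_length hα hγ, hε]
      have l2 : (wd α γ ζ (ε.map not)).length = ζ.length + m * (a + c) := by
        rw [wd_length hα hγ, List.length_map, hε]
      simp only [wd, List.map_cons, Nat.ofDigits_append, List.length_append, hα, l1, l2]
      rw [← h1]
      rcases b with _ | _ <;> simp only [Bool.not_false, Bool.not_true] <;> ring

/-- boolean words of length `m` starting with `false` -/
theorem bool_words (m : ℕ) : ∃ E : Finset (List Bool), E.card = 2 ^ m ∧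
    ∀ ε ∈ E, ε.length = m + 1 ∧ ε.head? = some false := by
  classical
  refine ⟨(Finset.univ : Finset (List.Vector Bool m)).image (fun v => false :: v.toList), ?_, ?_⟩
  · rw [Finset.card_image_of_injective]
    · simp
    · intro v v' h
      simp only [List.cons.injEq, true_and] at h
      exact Subtype.ext h
  · intro ε hε
    rw [Finset.mem_image] at hε
    obtain ⟨v, _, rfl⟩ := hε
    simp

/-- many representations from cubes -/
theorem many {A : Set ℕ} (k : ℕ) {a c : ℕ} (hα : ∀ b, (α b).length = a)
    (hγ : ∀ b, (γ b).length = c) (hne : ¬ (α true = α false ∧ γ true = γ false))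
    (π σ : List ℕ) (hA : ∀ ε : List Bool, ∃ x ∈ A, Nat.digits k x = π ++ wd α γ ζ ε ++ σ)
    (hk : 2 ≤ k) (h : ℕ) (hh : 2 ≤ h) :
    ∃ C : ℕ, 0 < C ∧ ∀ m : ℕ, ∃ n : ℕ, 2 ^ m ≤ n + 1 ∧ n ≤ 2 ^ (C * (m + 1)) ∧
      2 ^ m ≤ (Reps A h n).ncard := by
  classical
  choose x hxA hx using hA
  obtain ⟨L, hL⟩ : ∃ L : ℕ, L = π.length + ζ.length + σ.length := ⟨_, rfl⟩
  refine ⟨2 + (h - 2) * x [] + k * (L + (a + c)), by omega, fun m => ?_⟩
  obtain ⟨s, hs⟩ := wd_sum (ζ := ζ) hα hγ k (m + 1)
  obtain ⟨E, hE1, hE2⟩ := bool_words m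
  have hxd : ∀ ε, x ε = Nat.ofDigits k (π ++ wd α γ ζ ε ++ σ) := by
    intro ε
    rw [← hx ε, Nat.ofDigits_digits]
  have hinj : ∀ ε ε' : List Bool, ε.length = ε'.length → x ε = x ε' → ε = ε' := by
    intro ε ε' hl he
    have h1 : π ++ wd α γ ζ ε ++ σ = π ++ wd α γ ζ ε' ++ σ := by rw [← hx ε, ← hx ε', he]
    have h2 : wd α γ ζ ε = wd α γ ζ ε' := List.append_cancel_left (List.append_cancel_right h1)
    exact wd_inj hα hγ hne hl h2
  -- the common sum
  obtain ⟨t, ht⟩ : ∃ t : ℕ, ∀ ε : List Bool, ε.length = m + 1 → x ε + x (ε.map not) = t := by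
    refine ⟨(Nat.ofDigits k π + Nat.ofDigits k π) + k ^ π.length * s +
      k ^ (π.length + (ζ.length + (m + 1) * (a + c))) * (Nat.ofDigits k σ + Nat.ofDigits k σ),
      fun ε hε => ?_⟩
    have h1 := hs ε hε
    have l1 : (wd α γ ζ ε).length = ζ.length + (m + 1) * (a + c) := by rw [wd_length hα hγ, hε]
    have l2 : (wd α γ ζ (ε.map not)).length = ζ.length + (m + 1) * (a + c) := by
      rw [wd_length hα hγ, List.length_map, hε]
    rw [hxd, hxd]
    simp only [Nat.ofDigits_append, List.length_append, l1, l2]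
    rw [← h1]
    ring
  have hub : ∀ ε : List Bool, ε.length = m + 1 → x ε < k ^ (L + (m + 1) * (a + c)) := by
    intro ε hε
    have h1 := Nat.lt_base_pow_length_digits (b := k) (m := x ε) (by omega)
    have h2 : (Nat.digits k (x ε)).length = L + (m + 1) * (a + c) := by
      rw [hx ε]
      simp only [List.length_append, wd_length hα hγ, hε]
      omega
    rwa [h2] at h1
  set n := t + (h - 2) * x [] with hn
  refine ⟨n, ?_, ?_, ?_⟩
  · -- lower bound for n
    have h1 : (E.image x).card = 2 ^ m := by
      rw [Finset.card_image_of_injOn, hE1]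
      intro ε hε ε' hε' he
      exact hinj ε ε' ((hE2 ε hε).1.trans (hE2 ε' hε').1.symm) he
    have h2 : E.image x ⊆ Finset.range (n + 1) := by
      intro y hy
      rw [Finset.mem_image] at hy
      obtain ⟨ε, hε, rfl⟩ := hy
      rw [Finset.mem_range]
      have := ht ε (hE2 ε hε).1
      omega
    have h3 := Finset.card_le_card h2
    rw [h1, Finset.card_range] at h3
    exact h3
  · -- upper bound for n
    set M := L + (m + 1) * (a + c) with hM
    obtain ⟨ε, hε⟩ : ∃ ε : List Bool, ε.length = m + 1 := ⟨List.replicate (m + 1) true, by simp⟩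
    have h1 := ht ε hε
    have h2 := hub ε hε
    have h3 := hub (ε.map not) (by simpa using hε)
    have h4 : 1 ≤ k ^ M := Nat.one_le_pow _ _ (by omega)
    have h5 : n ≤ (2 + (h - 2) * x []) * k ^ M := by
      have h6 : (h - 2) * x [] ≤ (h - 2) * x [] * k ^ M := Nat.le_mul_of_pos_right _ h4
      have h7 : (2 + (h - 2) * x []) * k ^ M = 2 * k ^ M + (h - 2) * x [] * k ^ M := by ring
      rw [h7]
      omega
    have h8 : 2 + (h - 2) * x [] ≤ 2 ^ ((2 + (h - 2) * x []) * (m + 1)) :=
      Nat.lt_two_pow_self.le.trans (Nat.pow_le_pow_right (by norm_num)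
        (Nat.le_mul_of_pos_right _ (by omega)))
    have h9 : k ^ M ≤ 2 ^ (k * (L + (a + c)) * (m + 1)) := by
      calc k ^ M ≤ (2 ^ k) ^ M := Nat.pow_le_pow_left Nat.lt_two_pow_self.le _
        _ = 2 ^ (k * M) := (pow_mul _ _ _).symm
        _ ≤ _ := by
          apply Nat.pow_le_pow_right (by norm_num)
          rw [mul_assoc]
          apply Nat.mul_le_mul_left
          rw [hM]
          calc L + (m + 1) * (a + c) ≤ L * (m + 1) + (m + 1) * (a + c) :=
                Nat.add_le_add_right (Nat.le_mul_of_pos_right _ (by omega)) _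
            _ = (L + (a + c)) * (m + 1) := by ring
    calc n ≤ (2 + (h - 2) * x []) * k ^ M := h5
      _ ≤ 2 ^ ((2 + (h - 2) * x []) * (m + 1)) * 2 ^ (k * (L + (a + c)) * (m + 1)) :=
        Nat.mul_le_mul h8 h9
      _ = _ := by rw [← pow_add]; congr 1; ring
  · -- many representations
    set f : List Bool → Multiset ℕ :=
      fun ε => {x ε, x (ε.map not)} + Multiset.replicate (h - 2) (x []) with hf
    have hsub : (↑(E.image f) : Set (Multiset ℕ)) ⊆ Reps A h n := by
      intro y hy
      rw [Finset.mem_coe, Finset.mem_image] at hy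
      obtain ⟨ε, hε, rfl⟩ := hy
      refine ⟨?_, ?_, ?_⟩
      · simp only [hf, Multiset.card_add, Multiset.card_pair, Multiset.card_replicate]
        omega
      · intro b hb
        simp only [hf, Multiset.mem_add, Multiset.insert_eq_cons, Multiset.mem_cons,
          Multiset.mem_singleton, Multiset.mem_replicate] at hb
        rcases hb with (rfl | rfl) | ⟨_, rfl⟩ <;> exact hxA _
      · simp only [hf, Multiset.sum_add, Multiset.insert_eq_cons, Multiset.sum_cons,
          Multiset.sum_singleton, Multiset.sum_replicate, smul_eq_mul]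
        rw [ht ε (hE2 ε hε).1]
    have hcard : (E.image f).card = 2 ^ m := by
      rw [Finset.card_image_of_injOn, hE1]
      intro ε hε ε' hε' he
      obtain ⟨l1, b1⟩ := hE2 ε hε
      obtain ⟨l2, b2⟩ := hE2 ε' hε'
      have h1 : ({x ε, x (ε.map not)} : Multiset ℕ) = {x ε', x (ε'.map not)} := add_right_cancel he
      have h2 : x ε ∈ ({x ε', x (ε'.map not)} : Multiset ℕ) := by
        rw [← h1]; simp
      simp only [Multiset.insert_eq_cons, Multiset.mem_cons, Multiset.mem_singleton] at h2
      rcases h2 with h2 | h2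
      · exact hinj ε ε' (l1.trans l2.symm) h2
      · exfalso
        have h3 := hinj ε (ε'.map not) (by rw [List.length_map, l1, l2]) h2
        rw [h3, List.head?_map, b2] at b1
        simp at b1
    rw [← hcard, ← Set.ncard_coe_finset]
    exact Set.ncard_le_ncard hsub (reps_finite A h n)

end Pool.Agent.V7H79.CF
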