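import Mathlib

/-!
Context-free grammars: yields of strings of symbols, restricted to sets of nonterminals, and the
decomposition at a deepest occurrence of a nonterminal.
-/

set_option autoImplicit false

namespace Pool.Agent.V7H79.CF

variable {T : Type} {g : ContextFreeGrammar T}

/-- `Y S u w`: the string of symbols `u` yields the word `w`, using only rules whose input is in
`S` -/
inductive Y (S : Set g.NT) : List (Symbol T g.NT) → List T → Prop
  | nil : Y S [] []
  | term (t : T) {u : List (Symbol T g.NT)} {w : List T} (h : Y S u w) :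
      Y S (Symbol.terminal t :: u) (t :: w)
  | nont {r : ContextFreeRule T g.NT} {u : List (Symbol T g.NT)} {w₁ w₂ : List T}
      (hr : r ∈ g.rules) (hS : r.input ∈ S) (h₁ : Y S r.output w₁) (h₂ : Y S u w₂) :
      Y S (Symbol.nonterminal r.input :: u) (w₁ ++ w₂)

theorem Y.mono {S S' : Set g.NT} (h : S ⊆ S') {u : List (Symbol T g.NT)} {w : List T}
    (hu : Y S u w) : Y S' u w := by
  induction hu with
  | nil => exact Y.nil
  | term t _ ih => exact Y.term t ih
  | nont hr hS _ _ ih₁ ih₂ => exact Y.nont hr (h hS) ih₁ ih₂

theorem Y.append {S : Set g.NT} {u u' : List (Symbol T g.NT)} {w w' : List T}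
    (h : Y S u w) (h' : Y S u' w') : Y S (u ++ u') (w ++ w') := by
  induction h with
  | nil => simpa using h'
  | term t _ ih => simpa using Y.term t ih
  | nont hr hS h₁ _ _ ih₂ =>
    rw [List.cons_append, List.append_assoc]
    exact Y.nont hr hS h₁ ih₂

theorem Y.split {S : Set g.NT} {u u' : List (Symbol T g.NT)} {w : List T}
    (h : Y S (u ++ u') w) : ∃ w₁ w₂, w = w₁ ++ w₂ ∧ Y S u w₁ ∧ Y S u' w₂ := by
  induction u generalizing w with
  | nil => exact ⟨[], w, rfl, Y.nil, h⟩
  | cons x u ih =>
    rw [List.cons_append] at h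
    cases h with
    | term t h =>
      obtain ⟨w₁, w₂, rfl, h1, h2⟩ := ih h
      exact ⟨t :: w₁, w₂, rfl, Y.term t h1, h2⟩
    | nont hr hS h₁ h₂ =>
      obtain ⟨w₁, w₂, rfl, h1, h2⟩ := ih h₂
      exact ⟨_ ++ w₁, w₂, by rw [List.append_assoc], Y.nont hr hS h₁ h1, h2⟩

theorem Y.terminals {S : Set g.NT} (w : List T) : Y (g := g) S (w.map Symbol.terminal) w := by
  induction w with
  | nil => exact Y.nil
  | cons t w ih => exact Y.term t ih

theorem Y.derives {S : Set g.NT} {u : List (Symbol T g.NT)} {w : List T} (h : Y S u w) :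
    g.Derives u (w.map Symbol.terminal) := by
  induction h with
  | nil => exact ContextFreeGrammar.Derives.refl _
  | term t _ ih =>
    rw [List.map_cons]
    simpa using ih.append_left [Symbol.terminal t]
  | nont hr _ _ _ ih₁ ih₂ =>
    rename_i r u w₁ w₂ _ _ _
    have h1 : g.Derives [Symbol.nonterminal r.input] (w₁.map Symbol.terminal) :=
      ContextFreeGrammar.Produces.trans_derives ⟨r, hr, ContextFreeRule.Rewrites.input_output⟩ ih₁
    have h2 := h1.append_right u
    have h3 := ih₂.append_left (w₁.map Symbol.terminal)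
    rw [List.map_append]
    simpa using h2.trans h3

theorem Y.of_derives {u : List (Symbol T g.NT)} {w : List T}
    (h : g.Derives u (w.map Symbol.terminal)) : Y (g := g) Set.univ u w := by
  induction h using Relation.ReflTransGen.head_induction_on with
  | refl => exact Y.terminals w
  | head h₁ _ ih =>
    obtain ⟨r, hr, hrw⟩ := h₁
    obtain ⟨p, q, rfl, rfl⟩ := hrw.exists_parts
    obtain ⟨w₁, w₂, rfl, h1, h2⟩ := ih.split
    obtain ⟨w₃, w₄, rfl, h3, h4⟩ := h1.split
    refine Y.append (Y.append h3 ?_) h2
    have := Y.nont (S := Set.univ) hr (Set.mem_univ _) h4 Y.nil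
    simpa using this

/-- the set of inputs of rules -/
def inputs (g : ContextFreeGrammar T) : Set g.NT := {X | ∃ r ∈ g.rules, r.input = X}

theorem inputs_finite (g : ContextFreeGrammar T) : (inputs g).Finite := by
  have : inputs g = (fun r : ContextFreeRule T g.NT => r.input) '' (g.rules : Set _) := by
    ext X; simp [inputs]
  rw [this]
  exact g.rules.finite_toSet.image _

theorem Y.to_inputs {S : Set g.NT} {u : List (Symbol T g.NT)} {w : List T} (h : Y S u w) :
    Y (g := g) (inputs g) u w := by
  induction h with
  | nil => exact Y.nil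
  | term t _ ih => exact Y.term t ih
  | nont hr _ _ _ ih₁ ih₂ => exact Y.nont hr ⟨_, hr, rfl⟩ ih₁ ih₂

/-- `u` derives `α X γ` with `α`, `γ` words -/
def Ctx (g : ContextFreeGrammar T) (u : List (Symbol T g.NT)) (X : g.NT) (α γ : List T) : Prop :=
  g.Derives u (α.map Symbol.terminal ++ [Symbol.nonterminal X] ++ γ.map Symbol.terminal)

/-- decomposition at a deepest occurrence of `X` -/
theorem Y.decomp {S : Set g.NT} (X : g.NT) {u : List (Symbol T g.NT)} {w : List T} (h : Y S u w) :
    Y (S \ {X}) u w ∨ ∃ α β γ : List T, w = α ++ β ++ γ ∧ Ctx g u X α γ ∧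
      ∃ r ∈ g.rules, r.input = X ∧ Y (S \ {X}) r.output β := by
  induction h with
  | nil => exact Or.inl Y.nil
  | term t h ih =>
    rcases ih with h' | ⟨α, β, γ, rfl, hc, hr⟩
    · exact Or.inl (Y.term t h')
    · refine Or.inr ⟨t :: α, β, γ, rfl, ?_, hr⟩
      have := ContextFreeGrammar.Derives.append_left hc [Symbol.terminal t]
      simpa [Ctx] using this
  | nont hr hS h₁ h₂ ih₁ ih₂ =>
    rename_i r u w₁ w₂
    have hrule : g.Derives [Symbol.nonterminal r.input] r.output :=
      ContextFreeGrammar.Produces.single ⟨r, hr, ContextFreeRule.Rewrites.input_output⟩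
    have hrule' : g.Derives (Symbol.nonterminal r.input :: u) (r.output ++ u) := by
      simpa using hrule.append_right u
    rcases ih₁ with h1 | ⟨α, β, γ, rfl, hc, hr'⟩
    · rcases ih₂ with h2 | ⟨α, β, γ, rfl, hc, hr'⟩
      · by_cases hX : r.input = X
        · subst hX
          refine Or.inr ⟨[], w₁, w₂, by simp, ?_, r, hr, rfl, h1⟩
          have := ContextFreeGrammar.Derives.append_left h₂.derives [Symbol.nonterminal r.input]
          simpa [Ctx] using this
        · exact Or.inl (Y.nont hr ⟨hS, hX⟩ h1 h2)
      · refine Or.inr ⟨w₁ ++ α, β, γ, by simp, ?_, hr'⟩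
        have a1 := (h₁.derives).append_right u
        have a2 := ContextFreeGrammar.Derives.append_left hc (w₁.map Symbol.terminal)
        have := (hrule'.trans a1).trans a2
        simpa [Ctx] using this
    · refine Or.inr ⟨α, β, γ ++ w₂, by simp, ?_, hr'⟩
      have a1 := ContextFreeGrammar.Derives.append_right hc u
      have a2 := ContextFreeGrammar.Derives.append_left h₂.derives
        (α.map Symbol.terminal ++ [Symbol.nonterminal X] ++ γ.map Symbol.terminal)
      have := (hrule'.trans a1).trans a2
      simpa [Ctx] using this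

/-- `u` occurs in a string derived from the initial symbol with words around it -/
def Reach (g : ContextFreeGrammar T) (u : List (Symbol T g.NT)) : Prop :=
  ∃ π σ : List T, g.Derives [Symbol.nonterminal g.initial]
    (π.map Symbol.terminal ++ u ++ σ.map Symbol.terminal)

/-- for every reachable and productive nonterminal `X`, the contexts of `X` in itself are
determined by the lengths -/
def UniqueCtx (g : ContextFreeGrammar T) : Prop :=
  ∀ X : g.NT, Reach g [Symbol.nonterminal X] → (∃ ζ : List T, Y (g := g) Set.univ [Symbol.nonterminal X] ζ) →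
    ∀ α γ α' γ' : List T, Ctx g [Symbol.nonterminal X] X α γ → Ctx g [Symbol.nonterminal X] X α' γ' →
      α.length = α'.length → γ.length = γ'.length → α = α' ∧ γ = γ'

end Pool.Agent.V7H79.CF
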