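import Pool.Agent.V7H79.CF.Cube

/-!
Erdos-Turan for finite unions of sets with context-free expansions.
-/

set_option autoImplicit false

namespace Pool.Agent.V7H79.CF

open Filter Topology

theorem wd_derives {g : ContextFreeGrammar ℕ} {X : g.NT} {α γ : Bool → List ℕ} {ζ : List ℕ}
    (hc : ∀ b, Ctx g [Symbol.nonterminal X] X (α b) (γ b))
    (hζ : Y (g := g) Set.univ [Symbol.nonterminal X] ζ) (ε : List Bool) :
    g.Derives [Symbol.nonterminal X] ((wd α γ ζ ε).map Symbol.terminal) := by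
  induction ε with
  | nil => exact hζ.derives
  | cons b ε ih =>
    have h1 := hc b
    unfold Ctx at h1
    have h2 := ContextFreeGrammar.Derives.append_right (ContextFreeGrammar.Derives.append_left ih
      ((α b).map Symbol.terminal)) ((γ b).map Symbol.terminal)
    simp only [wd, List.map_append]
    exact h1.trans h2

/-- the language of the base `k` expansions -/
def expansions (k : ℕ) (B : Set ℕ) : Language ℕ := {w : List ℕ | ∃ a ∈ B, w = Nat.digits k a}

/-- the dichotomy -/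
theorem dichotomy {k : ℕ} (hk : 2 ≤ k) {B A : Set ℕ} (hB : (expansions k B).IsContextFree)
    (hBA : B ⊆ A) :
    (∃ m : ℕ, ∀ t : ℕ, ∃ F : Finset ℕ, {a | a ∈ B ∧ a < 2 ^ t} ⊆ (F : Set ℕ) ∧
      F.card ≤ (t + 2) ^ m) ∨
    ∀ h : ℕ, 2 ≤ h → ∃ C : ℕ, 0 < C ∧ ∀ m : ℕ, ∃ n : ℕ, 2 ^ m ≤ n + 1 ∧ n ≤ 2 ^ (C * (m + 1)) ∧
      2 ^ m ≤ (Reps A h n).ncard := by
  classical
  obtain ⟨g, hg⟩ := hB
  by_cases hU : UniqueCtx g
  · left
    obtain ⟨m, hm⟩ := PB.language hU
    refine ⟨m, fun t => ?_⟩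
    obtain ⟨F, h1, h2⟩ := hm t
    refine ⟨F.image (Nat.ofDigits k), ?_, Finset.card_image_le.trans h2⟩
    rintro a ⟨ha, hat⟩
    rw [Finset.mem_coe, Finset.mem_image]
    refine ⟨Nat.digits k a, Finset.mem_coe.1 (h1 ⟨?_, ?_⟩), Nat.ofDigits_digits k a⟩
    · rw [hg]; exact ⟨a, ha, rfl⟩
    · rw [Nat.digits_length_le_iff (by omega)]
      exact hat.trans_le (Nat.pow_le_pow_left hk t)
  · right
    intro h hh
    unfold UniqueCtx at hU
    push Not at hU
    obtain ⟨X, ⟨π, σ, hπ⟩, ⟨ζ, hζ⟩, α₀, γ₀, α₁, γ₁, c0, c1, e1, e2, hne⟩ := hU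
    set α : Bool → List ℕ := fun b => if b then α₁ else α₀ with hα
    set γ : Bool → List ℕ := fun b => if b then γ₁ else γ₀ with hγ
    have hc : ∀ b, Ctx g [Symbol.nonterminal X] X (α b) (γ b) := by
      intro b; cases b
      · exact c0
      · exact c1
    refine many (α := α) (γ := γ) (ζ := ζ) (a := α₀.length) (c := γ₀.length) k ?_ ?_ ?_ π σ ?_ hk
      h hh
    · intro b; cases b
      · rfl
      · exact e1.symm
    · intro b; cases b
      · rfl
      · exact e2.symm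
    · rintro ⟨h1, h2⟩
      have h1' : α₁ = α₀ := h1
      have h2' : γ₁ = γ₀ := h2
      exact hne h1'.symm h2'.symm
    · intro ε
      have h1 := wd_derives hc hζ ε
      have h2 := ContextFreeGrammar.Derives.append_right (ContextFreeGrammar.Derives.append_left h1
        (π.map Symbol.terminal)) (σ.map Symbol.terminal)
      have h3 : π ++ wd α γ ζ ε ++ σ ∈ g.language := by
        rw [ContextFreeGrammar.mem_language_iff]
        simp only [List.map_append]
        exact hπ.trans h2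
      rw [hg] at h3
      obtain ⟨x, hx, he⟩ := h3
      exact ⟨x, hBA hx, he.symm⟩

theorem growth (N c K : ℕ) : ∃ t : ℕ, N + c * (t + 2) ^ K < 2 ^ t := by
  have h1 := tendsto_pow_const_div_const_pow_of_one_lt K (r := (2 : ℝ)) (by norm_num)
  have h2 := tendsto_pow_const_div_const_pow_of_one_lt 0 (r := (2 : ℝ)) (by norm_num)
  have hp : (0 : ℝ) < 1 / (8 * (c + 1)) := by positivity
  have hq : (0 : ℝ) < 1 / (2 * (N + 1)) := by positivity
  have e1 := (h1.eventually (gt_mem_nhds hp)).and (h2.eventually (gt_mem_nhds hq))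
  obtain ⟨n₀, hn₀⟩ := eventually_atTop.1 e1
  obtain ⟨a1, _⟩ := hn₀ (n₀ + 2) (by omega)
  obtain ⟨_, a2⟩ := hn₀ n₀ le_rfl
  refine ⟨n₀, ?_⟩
  have p1 : (0 : ℝ) < 2 ^ n₀ := by positivity
  have p2 : (0 : ℝ) < 2 ^ (n₀ + 2) := by positivity
  rw [div_lt_div_iff₀ p2 (by positivity)] at a1
  rw [pow_zero, div_lt_div_iff₀ p1 (by positivity)] at a2
  have a3 : (8 : ℝ) * (c + 1) * ((n₀ : ℝ) + 2) ^ K < 4 * 2 ^ n₀ := by
    push_cast at a1
    calc (8 : ℝ) * (c + 1) * ((n₀ : ℝ) + 2) ^ K = ((n₀ : ℝ) + 2) ^ K * (8 * (c + 1)) := by ring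
      _ < 1 * 2 ^ (n₀ + 2) := a1
      _ = _ := by ring
  have a4 : (0 : ℝ) ≤ ((n₀ : ℝ) + 2) ^ K := by positivity
  have a5 : ((N + c * (n₀ + 2) ^ K : ℕ) : ℝ) < ((2 ^ n₀ : ℕ) : ℝ) := by
    push_cast
    nlinarith
  exact_mod_cast a5

theorem main {ι : Type} [Fintype ι] (k : ι → ℕ) (hk : ∀ i, 2 ≤ k i) (B : ι → Set ℕ)
    (hB : ∀ i, (expansions (k i) (B i)).IsContextFree) (h : ℕ) (hh : 2 ≤ h)
    (hb : ∃ N : ℕ, ∀ n : ℕ, N ≤ n → ∃ s : Multiset ℕ, Multiset.card s = h ∧
      (∀ a ∈ s, a ∈ ⋃ i, B i) ∧ s.sum = n) :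
    ∃ c : ℝ, 0 < c ∧ ∀ N : ℕ, ∃ n : ℕ, N ≤ n ∧ (n : ℝ) ^ c ≤ ((Reps (⋃ i, B i) h n).ncard : ℝ) := by
  classical
  by_cases hex : ∃ C : ℕ, 0 < C ∧ ∀ m : ℕ, ∃ n : ℕ, 2 ^ m ≤ n + 1 ∧ n ≤ 2 ^ (C * (m + 1)) ∧
      2 ^ m ≤ (Reps (⋃ i, B i) h n).ncard
  · obtain ⟨C, hC, H⟩ := hex
    refine ⟨1 / (2 * C), by positivity, fun N => ?_⟩
    obtain ⟨n, h1, h2, h3⟩ := H (N + 1)
    refine ⟨n, ?_, ?_⟩
    · have := Nat.lt_two_pow_self (n := N + 1)
      omega
    · have hC' : (0 : ℝ) < C := by exact_mod_cast hC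
      have h2' : (n : ℝ) ≤ 2 ^ ((C : ℝ) * ((N : ℝ) + 1 + 1)) := by
        have : ((n : ℕ) : ℝ) ≤ ((2 ^ (C * (N + 1 + 1)) : ℕ) : ℝ) := by exact_mod_cast h2
        refine this.trans_eq ?_
        rw [Nat.cast_pow, Nat.cast_ofNat, ← Real.rpow_natCast]
        push_cast
        ring_nf
      calc (n : ℝ) ^ (1 / (2 * (C : ℝ))) ≤ (2 ^ ((C : ℝ) * ((N : ℝ) + 1 + 1))) ^ (1 / (2 * (C : ℝ))) :=
            Real.rpow_le_rpow (Nat.cast_nonneg n) h2' (by positivity)
        _ = 2 ^ (((N : ℝ) + 2) / 2) := by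
            rw [← Real.rpow_mul (by norm_num)]
            congr 1
            field_simp
            ring
        _ ≤ 2 ^ ((N : ℝ) + 1) := by
            apply Real.rpow_le_rpow_of_exponent_le (by norm_num)
            have : (0 : ℝ) ≤ N := Nat.cast_nonneg N
            linarith
        _ = ((2 ^ (N + 1) : ℕ) : ℝ) := by
            rw [Nat.cast_pow, Nat.cast_ofNat, ← Real.rpow_natCast]
            push_cast
            rfl
        _ ≤ _ := by exact_mod_cast h3
  · exfalso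
    have hP : ∀ i, ∃ m : ℕ, ∀ t : ℕ, ∃ F : Finset ℕ, {a | a ∈ B i ∧ a < 2 ^ t} ⊆ (F : Set ℕ) ∧
        F.card ≤ (t + 2) ^ m := by
      intro i
      rcases dichotomy (hk i) (hB i) (Set.subset_iUnion B i) with h1 | h1
      · exact h1
      · exact absurd (h1 h hh) hex
    choose m hm using hP
    choose F hF1 hF2 using hm
    obtain ⟨N, hN⟩ := hb
    set M := Finset.univ.sup m with hM
    set c := Fintype.card ι with hc
    obtain ⟨t, ht⟩ := growth N (c ^ h) (M * h)
    set G : Finset ℕ := Finset.univ.biUnion (fun i => F i t) with hG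
    have hGc : G.card ≤ c * (t + 2) ^ M := by
      calc G.card ≤ ∑ i, (F i t).card := Finset.card_biUnion_le
        _ ≤ ∑ _i : ι, (t + 2) ^ M := by
            apply Finset.sum_le_sum
            intro i _
            exact (hF2 i t).trans (pow_le (Finset.le_sup (Finset.mem_univ i)))
        _ = c * (t + 2) ^ M := by rw [Finset.sum_const, smul_eq_mul, Finset.card_univ]
    have hGm : ∀ a, a ∈ (⋃ i, B i) → a < 2 ^ t → a ∈ G := by
      intro a ha hat
      obtain ⟨i, hi⟩ := Set.mem_iUnion.1 ha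
      rw [hG, Finset.mem_biUnion]
      exact ⟨i, Finset.mem_univ i, Finset.mem_coe.1 (hF1 i t ⟨hi, hat⟩)⟩
    have hsub : Finset.Ico N (2 ^ t) ⊆
        (Fintype.piFinset (fun _ : Fin h => G)).image (fun f => ∑ j, f j) := by
      intro n hn
      rw [Finset.mem_Ico] at hn
      obtain ⟨s, hs1, hs2, hs3⟩ := hN n hn.1
      obtain ⟨l, rfl⟩ := Quot.exists_rep s
      have hl : l.length = h := hs1
      subst hl
      rw [Finset.mem_image]
      refine ⟨fun j => l.get j, ?_, ?_⟩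
      · rw [Fintype.mem_piFinset]
        intro j
        have hj : l.get j ∈ l := List.get_mem l j
        refine hGm _ (hs2 _ hj) (lt_of_le_of_lt ?_ hn.2)
        have hs3' : l.sum = n := hs3
        rw [← hs3']
        exact List.le_sum_of_mem hj
      · have hs3' : l.sum = n := hs3
        rw [← hs3']
        simp only [List.get_eq_getElem]
        rw [← List.sum_ofFn]
        congr 1
        exact List.ofFn_getElem
    have h1 := Finset.card_le_card hsub
    rw [Nat.card_Ico] at h1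
    have h2 : ((Fintype.piFinset (fun _ : Fin h => G)).image (fun f => ∑ j, f j)).card ≤
        (c * (t + 2) ^ M) ^ h := by
      refine Finset.card_image_le.trans ?_
      rw [Fintype.card_piFinset_const]
      exact Nat.pow_le_pow_left hGc h
    have h3 : (c * (t + 2) ^ M) ^ h = c ^ h * (t + 2) ^ (M * h) := by
      rw [mul_pow, ← pow_mul]
    omega

end Pool.Agent.V7H79.CF
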